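import Pool.Agent.R795.BC.Nonzero
import Pool.Agent.R795.BC.TC

/-!
# Equivariant zero-divisors can beat the fixed point sets

The infinite cyclic group `G` acts freely on `X = S¹ × ℝ` by `n · (z, t) = ((-1)^n z, t + n)`
(`S¹ = ℝ/ℤ`). All fixed point sets `X^H` have topological complexity at most `1`, but for Borel
cohomology with coefficients in the field with two elements there are two elements of the kernel
of `h_G(X × X) → h_G(X)` whose product is nonzero, so that `nil I_h(X) ≥ 2`. Both elements are
the class which measures the difference of the two angular coordinates; this difference defines a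
map to the Klein bottle, and the class comes from a class of degree one of the Klein bottle with
nonzero square, which vanishes on the section given by angle zero.
-/

set_option autoImplicit false

namespace Pool.Agent.Results.MP_26f563_gt.BorelZeroDivisors

open Pool.Agent.R795.BC

theorem result :
    IsEG GG EE ∧ (∀ g : GG, Continuous fun x : XX => g • x) ∧
      (∀ H : Subgroup GG, TCLe (MulAction.fixedPoints H XX) 1) ∧
      ∃ a b : Cochain (HOrb GG EE (XX × XX)) 1,
        InKer GG EE XX a ∧ InKer GG EE XX b ∧ ¬ IsCoboundary (cup a b) :=
  ⟨isEG, continuous_smul_XX, tcLe_fixedPoints, cc, cc, cc_inKer, cc_inKer, not_isCoboundary⟩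

end Pool.Agent.Results.MP_26f563_gt.BorelZeroDivisors
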